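import Pool.Agent.helper18.HG.Spec

set_option autoImplicit false

namespace Pool.Agent.helper18.HG

open Finset

theorem PAR_geom (N : ℕ) (hN : 1 ≤ N) (a b : ℕ) (ha : a < N) (hb : b < N) (hab : a ≠ b) :
    ∑ j ∈ range N, ((Complex.exp (2 * Real.pi * Complex.I / N)) ^ a *
      (starRingEnd ℂ) ((Complex.exp (2 * Real.pi * Complex.I / N)) ^ b)) ^ j = 0 := by
  have hprim : IsPrimitiveRoot (Complex.exp (2 * Real.pi * Complex.I / N)) N :=
    Complex.isPrimitiveRoot_exp N (by omega)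
  set ω : ℂ := Complex.exp (2 * Real.pi * Complex.I / N) with hω
  have hωN : ω ^ N = 1 := hprim.pow_eq_one
  have hn1 : ‖ω‖ = 1 := hprim.norm'_eq_one (by omega)
  have hωω : ω * (starRingEnd ℂ) ω = 1 := by
    rw [Complex.mul_conj', hn1]
    norm_num
  have hcN : ((starRingEnd ℂ) ω) ^ N = 1 := by
    rw [← map_pow, hωN, map_one]
  set z : ℂ := ω ^ a * (starRingEnd ℂ) (ω ^ b) with hz
  have hzN : z ^ N = 1 := by
    rw [hz, mul_pow, map_pow, ← pow_mul, ← pow_mul, mul_comm a N, mul_comm b N, pow_mul, pow_mul,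
      hωN, hcN, one_pow, one_pow, mul_one]
  have hz1 : z ≠ 1 := by
    intro h
    have h2 : ω ^ a = ω ^ b := by
      have h3 : ω ^ b * z = ω ^ a := by
        rw [hz]
        calc ω ^ b * (ω ^ a * (starRingEnd ℂ) (ω ^ b))
            = ω ^ a * ((ω * (starRingEnd ℂ) ω) ^ b) := by
              rw [map_pow, mul_pow]
              ring
          _ = ω ^ a := by rw [hωω, one_pow, mul_one]
      rw [← h3, h, mul_one]
    exact hab (hprim.pow_inj ha hb h2)
  have hg := geom_sum_mul z N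
  rw [hzN, sub_self] at hg
  exact (mul_eq_zero.mp hg).resolve_right (sub_ne_zero.mpr hz1)

theorem PAR_exp (N : ℕ) (j n : ℕ) :
    Complex.exp (2 * Real.pi * Complex.I * (j * n / N)) =
      ((Complex.exp (2 * Real.pi * Complex.I / N)) ^ n) ^ j := by
  rw [← pow_mul, ← Complex.exp_nat_mul]
  congr 1
  push_cast
  ring

theorem PAR : PAR_stmt := by
  intro N q hN
  have hNc : (N : ℂ) ≠ 0 := by
    exact_mod_cast (by omega : N ≠ 0)
  have hprim : IsPrimitiveRoot (Complex.exp (2 * Real.pi * Complex.I / N)) N :=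
    Complex.isPrimitiveRoot_exp N (by omega)
  have hgeom := PAR_geom N hN
  have hexp := PAR_exp N
  have hn1 : ‖Complex.exp (2 * Real.pi * Complex.I / N)‖ = 1 := hprim.norm'_eq_one (by omega)
  generalize Complex.exp (2 * Real.pi * Complex.I / N) = ω at hprim hgeom hexp hn1
  have hωω : ω * (starRingEnd ℂ) ω = 1 := by
    rw [Complex.mul_conj', hn1]
    norm_num
  have hreal : ((∑ j ∈ range N, ‖∑ n ∈ range N, q n *
      Complex.exp (2 * Real.pi * Complex.I * (j * n / N))‖ ^ 2 : ℝ) : ℂ) =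
      ((N * ∑ n ∈ range N, ‖q n‖ ^ 2 : ℝ) : ℂ) := by
    push_cast
    have h1 : ∀ j ∈ range N, ((‖∑ n ∈ range N, q n *
        Complex.exp (2 * Real.pi * Complex.I * (j * n / N))‖ : ℝ) : ℂ) ^ 2 =
        ∑ a ∈ range N, ∑ b ∈ range N, (q a * (starRingEnd ℂ) (q b)) *
          ((ω ^ a * (starRingEnd ℂ) (ω ^ b)) ^ j) := by
      intro j _
      rw [← Complex.mul_conj', map_sum, Finset.sum_mul_sum]
      refine Finset.sum_congr rfl (fun a _ => Finset.sum_congr rfl (fun b _ => ?_))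
      rw [hexp j a, hexp j b, map_mul, map_pow, mul_pow]
      ring
    rw [Finset.sum_congr rfl h1, Finset.sum_comm]
    have h2 : ∀ a ∈ range N, ∑ j ∈ range N, ∑ b ∈ range N, (q a * (starRingEnd ℂ) (q b)) *
          ((ω ^ a * (starRingEnd ℂ) (ω ^ b)) ^ j) = (N : ℂ) * ((‖q a‖ : ℝ) : ℂ) ^ 2 := by
      intro a ha
      rw [Finset.sum_comm]
      have h3 : ∀ b ∈ range N, b ≠ a → ∑ j ∈ range N, (q a * (starRingEnd ℂ) (q b)) *
          ((ω ^ a * (starRingEnd ℂ) (ω ^ b)) ^ j) = 0 := by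
        intro b hb hba
        rw [← Finset.mul_sum, hgeom a b (Finset.mem_range.mp ha) (Finset.mem_range.mp hb)
          (Ne.symm hba), mul_zero]
      rw [Finset.sum_eq_single a h3 (fun h => absurd ha h), ← Finset.mul_sum]
      have h4 : ω ^ a * (starRingEnd ℂ) (ω ^ a) = 1 := by
        rw [map_pow, ← mul_pow, hωω, one_pow]
      rw [h4, Complex.mul_conj']
      simp only [one_pow, Finset.sum_const, Finset.card_range, nsmul_eq_mul, mul_one]
      ring
    rw [Finset.sum_congr rfl h2, ← Finset.mul_sum]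
  exact_mod_cast hreal

end Pool.Agent.helper18.HG
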